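import Mathlib

namespace Pool.Agent.H41.EH

open Finset

/-- Finite lemma: a sparse subset of a product lies, up to a factor two, in its light rows and
columns. -/
theorem finl {α β : Type*} [DecidableEq α] [DecidableEq β] (A : Finset α) (B : Finset β)
    (T : Finset (α × β)) (hT : T ⊆ A ×ˢ B) (k : ℝ) (hk : 0 < k)
    (h : (T.card : ℝ) ≤ k ^ 2 * ((A.card : ℝ) * B.card) / 2) :
    (T.card : ℝ) ≤
      2 * (((T.filter fun x => ((T.filter fun y => y.1 = x.1).card : ℝ) < k * B.card).card : ℝ) +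
        ((T.filter fun x => ((T.filter fun y => y.2 = x.2).card : ℝ) < k * A.card).card : ℝ)) := by
  set L1 := T.filter fun x => ((T.filter fun y => y.1 = x.1).card : ℝ) < k * B.card with hL1
  set L2 := T.filter fun x => ((T.filter fun y => y.2 = x.2).card : ℝ) < k * A.card with hL2
  set HC := A.filter fun a => k * B.card ≤ ((T.filter fun y => y.1 = a).card : ℝ) with hHC
  set HR := B.filter fun b => k * A.card ≤ ((T.filter fun y => y.2 = b).card : ℝ) with hHR
  have hcov : T ⊆ (L1 ∪ L2) ∪ HC ×ˢ HR := by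
    intro x hx
    by_cases h1 : x ∈ L1
    · exact mem_union_left _ (mem_union_left _ h1)
    by_cases h2 : x ∈ L2
    · exact mem_union_left _ (mem_union_right _ h2)
    apply mem_union_right
    have hxp := mem_product.1 (hT hx)
    rw [hL1, mem_filter] at h1
    rw [hL2, mem_filter] at h2
    rw [mem_product, hHC, hHR, mem_filter, mem_filter]
    refine ⟨⟨hxp.1, ?_⟩, ⟨hxp.2, ?_⟩⟩
    · by_contra hc; exact h1 ⟨hx, not_le.1 hc⟩
    · by_contra hc; exact h2 ⟨hx, not_le.1 hc⟩
  have hc1 : (T.card : ℝ) ≤ (L1.card : ℝ) + L2.card + (HC.card : ℝ) * HR.card := by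
    have h1 := card_le_card hcov
    have h2 := card_union_le (L1 ∪ L2) (HC ×ˢ HR)
    have h3 := card_union_le L1 L2
    rw [card_product] at h2
    have h4 : T.card ≤ L1.card + L2.card + HC.card * HR.card := by omega
    exact_mod_cast h4
  have hHC1 : (HC.card : ℝ) * (k * B.card) ≤ T.card := by
    calc (HC.card : ℝ) * (k * B.card) = ∑ _a ∈ HC, k * (B.card : ℝ) := by
          rw [sum_const, nsmul_eq_mul]
      _ ≤ ∑ a ∈ HC, ((T.filter fun y => y.1 = a).card : ℝ) := by
          apply sum_le_sum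
          intro a ha
          exact (mem_filter.1 ha).2
      _ ≤ T.card := by
          have := card_eq_sum_card_fiberwise (s := T.filter fun y => y.1 ∈ HC) (t := HC)
            (f := fun y : α × β => y.1) (by intro x hx; exact (mem_filter.1 hx).2)
          have h5 : ∑ a ∈ HC, (T.filter fun y => y.1 = a).card
              = (T.filter fun y => y.1 ∈ HC).card := by
            rw [this]
            apply sum_congr rfl
            intro a ha
            congr 1
            ext y
            simp only [mem_filter]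
            constructor
            · rintro ⟨h1, h2⟩; exact ⟨⟨h1, h2 ▸ ha⟩, h2⟩
            · rintro ⟨⟨h1, _⟩, h2⟩; exact ⟨h1, h2⟩
          have h6 : ∑ a ∈ HC, (T.filter fun y => y.1 = a).card ≤ T.card := by
            rw [h5]; exact card_filter_le _ _
          exact_mod_cast h6
  have hHR1 : (HR.card : ℝ) * (k * A.card) ≤ T.card := by
    calc (HR.card : ℝ) * (k * A.card) = ∑ _b ∈ HR, k * (A.card : ℝ) := by
          rw [sum_const, nsmul_eq_mul]
      _ ≤ ∑ b ∈ HR, ((T.filter fun y => y.2 = b).card : ℝ) := by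
          apply sum_le_sum
          intro a ha
          exact (mem_filter.1 ha).2
      _ ≤ T.card := by
          have := card_eq_sum_card_fiberwise (s := T.filter fun y => y.2 ∈ HR) (t := HR)
            (f := fun y : α × β => y.2) (by intro x hx; exact (mem_filter.1 hx).2)
          have h5 : ∑ b ∈ HR, (T.filter fun y => y.2 = b).card
              = (T.filter fun y => y.2 ∈ HR).card := by
            rw [this]
            apply sum_congr rfl
            intro a ha
            congr 1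
            ext y
            simp only [mem_filter]
            constructor
            · rintro ⟨h1, h2⟩; exact ⟨⟨h1, h2 ▸ ha⟩, h2⟩
            · rintro ⟨⟨h1, _⟩, h2⟩; exact ⟨h1, h2⟩
          have h6 : ∑ b ∈ HR, (T.filter fun y => y.2 = b).card ≤ T.card := by
            rw [h5]; exact card_filter_le _ _
          exact_mod_cast h6
  have hprod : (HC.card : ℝ) * HR.card ≤ T.card / 2 := by
    by_cases hT0 : T.card = 0
    · have hA : (HC.card : ℝ) * HR.card ≤ 0 := by
        by_contra hcon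
        push Not at hcon
        have hpos : 0 < HC.card * HR.card := by exact_mod_cast hcon
        have hHCpos : 0 < HC.card := by
          rcases Nat.eq_zero_or_pos HC.card with h0 | h0
          · rw [h0] at hpos; simp at hpos
          · exact h0
        obtain ⟨a, ha⟩ := card_pos.1 hHCpos
        have hHRpos : 0 < HR.card := by
          rcases Nat.eq_zero_or_pos HR.card with h0 | h0
          · rw [h0] at hpos; simp at hpos
          · exact h0
        obtain ⟨b, hb⟩ := card_pos.1 hHRpos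
        have hBpos : 0 < B.card := card_pos.2 ⟨b, (mem_filter.1 hb).1⟩
        have h7 := hHC1
        rw [hT0] at h7
        have h8 : (0 : ℝ) < (HC.card : ℝ) * (k * B.card) := by positivity
        push_cast at h7
        linarith
      rw [hT0]; simpa using hA
    · have hTpos : (0 : ℝ) < T.card := by exact_mod_cast Nat.pos_of_ne_zero hT0
      have hAB : (0 : ℝ) < k ^ 2 * ((A.card : ℝ) * B.card) := by linarith
      have h9 : ((HC.card : ℝ) * (k * B.card)) * ((HR.card : ℝ) * (k * A.card))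
          ≤ (T.card : ℝ) * T.card :=
        mul_le_mul hHC1 hHR1 (by positivity) (by positivity)
      have h10 : ((HC.card : ℝ) * HR.card) * (k ^ 2 * ((A.card : ℝ) * B.card))
          ≤ (T.card / 2) * (k ^ 2 * ((A.card : ℝ) * B.card)) := by
        calc ((HC.card : ℝ) * HR.card) * (k ^ 2 * ((A.card : ℝ) * B.card))
            = ((HC.card : ℝ) * (k * B.card)) * ((HR.card : ℝ) * (k * A.card)) := by ring
          _ ≤ (T.card : ℝ) * T.card := h9
          _ ≤ (T.card : ℝ) * (k ^ 2 * ((A.card : ℝ) * B.card) / 2) :=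
              mul_le_mul_of_nonneg_left h hTpos.le
          _ = (T.card / 2) * (k ^ 2 * ((A.card : ℝ) * B.card)) := by ring
      exact le_of_mul_le_mul_right h10 hAB
  linarith

/-- Matching lemma: many heavy pairs contain many disjoint heavy pairs. -/
theorem matching {ι : Type*} [DecidableEq ι] (I : Finset ι) (a : ι → ι → ℝ) (mu : ℝ)
    (hle : ∀ i ∈ I, ∀ j ∈ I, a i j ≤ 1)
    (hs : mu ^ 2 * (I.card : ℝ) ^ 2 ≤ ∑ i ∈ I, ∑ j ∈ I, a i j)
    (hR : 16 ≤ (I.card : ℝ) * mu ^ 2) :
    ∃ M : Finset (ι × ι),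
      (∀ x ∈ M, x.1 ∈ I ∧ x.2 ∈ I ∧ x.1 ≠ x.2 ∧ mu ^ 2 / 2 ≤ a x.1 x.2) ∧
      (∀ x ∈ M, ∀ y ∈ M, x ≠ y → x.1 ≠ y.1 ∧ x.1 ≠ y.2 ∧ x.2 ≠ y.1 ∧ x.2 ≠ y.2) ∧
      mu ^ 2 * (I.card : ℝ) / 32 ≤ (M.card : ℝ) := by
  classical
  set E := (I ×ˢ I).filter fun x => x.1 ≠ x.2 ∧ mu ^ 2 / 2 ≤ a x.1 x.2 with hE
  set P : Finset (ι × ι) → Prop := fun M =>
    ∀ x ∈ M, ∀ y ∈ M, x ≠ y → x.1 ≠ y.1 ∧ x.1 ≠ y.2 ∧ x.2 ≠ y.1 ∧ x.2 ≠ y.2 with hP
  have hne : (E.powerset.filter P).Nonempty :=
    ⟨∅, by simp [hP]⟩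
  obtain ⟨M, hM, hmax⟩ := exists_max_image (E.powerset.filter P) (fun M => M.card) hne
  rw [mem_filter, mem_powerset] at hM
  obtain ⟨hME, hMP⟩ := hM
  set V := M.image Prod.fst ∪ M.image Prod.snd with hV
  have hVc : V.card ≤ 2 * M.card := by
    have h1 := card_union_le (M.image Prod.fst) (M.image Prod.snd)
    have h2 := card_image_le (s := M) (f := (Prod.fst : ι × ι → ι))
    have h3 := card_image_le (s := M) (f := (Prod.snd : ι × ι → ι))
    rw [hV]
    omega
  have hcover : ∀ x ∈ E, x.1 ∈ V ∨ x.2 ∈ V := by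
    intro x hx
    by_contra hcon
    push Not at hcon
    obtain ⟨hx1, hx2⟩ := hcon
    have hxne : x.1 ≠ x.2 := (mem_filter.1 hx).2.1
    have hxM : x ∉ M := by
      intro hxm
      exact hx1 (mem_union_left _ (mem_image_of_mem _ hxm))
    have key : ∀ y ∈ M, x.1 ≠ y.1 ∧ x.1 ≠ y.2 ∧ x.2 ≠ y.1 ∧ x.2 ≠ y.2 := by
      intro y hy
      refine ⟨?_, ?_, ?_, ?_⟩ <;> intro he
      · exact hx1 (he ▸ mem_union_left _ (mem_image_of_mem _ hy))
      · exact hx1 (he ▸ mem_union_right _ (mem_image_of_mem _ hy))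
      · exact hx2 (he ▸ mem_union_left _ (mem_image_of_mem _ hy))
      · exact hx2 (he ▸ mem_union_right _ (mem_image_of_mem _ hy))
    have hins : insert x M ∈ E.powerset.filter P := by
      rw [mem_filter, mem_powerset]
      refine ⟨insert_subset hx hME, ?_⟩
      intro u hu v hv huv
      rw [mem_insert] at hu hv
      rcases hu with rfl | hu
      · rcases hv with rfl | hv
        · exact absurd rfl huv
        · exact key v hv
      · rcases hv with rfl | hv
        · obtain ⟨h1, h2, h3, h4⟩ := key u hu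
          exact ⟨h1.symm, h3.symm, h2.symm, h4.symm⟩
        · exact hMP u hu v hv huv
    have := hmax _ hins
    simp only [card_insert_of_notMem hxM] at this
    omega
  have hEc : E.card ≤ 2 * (V.card * I.card) := by
    have hsub : E ⊆ V ×ˢ I ∪ I ×ˢ V := by
      intro x hx
      have hxp := mem_product.1 (mem_filter.1 hx).1
      rcases hcover x hx with h1 | h1
      · exact mem_union_left _ (mem_product.2 ⟨h1, hxp.2⟩)
      · exact mem_union_right _ (mem_product.2 ⟨hxp.1, h1⟩)
    have h1 := card_le_card hsub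
    have h2 := card_union_le (V ×ˢ I) (I ×ˢ V)
    rw [card_product, card_product] at h2
    have h3 : I.card * V.card = V.card * I.card := Nat.mul_comm _ _
    omega
  have hEr : (E.card : ℝ) ≤ 4 * M.card * I.card := by
    have h1 : E.card ≤ 4 * M.card * I.card := by
      calc E.card ≤ 2 * (V.card * I.card) := hEc
        _ ≤ 2 * ((2 * M.card) * I.card) := by gcongr
        _ = 4 * M.card * I.card := by ring
    exact_mod_cast h1
  -- lower bound for the number of edges
  have hElow : mu ^ 2 * (I.card : ℝ) ^ 2 ≤ (E.card : ℝ) + I.card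
      + (mu ^ 2 / 2) * (I.card : ℝ) ^ 2 := by
    have h1 : ∑ i ∈ I, ∑ j ∈ I, a i j = ∑ x ∈ I ×ˢ I, a x.1 x.2 := by
      rw [sum_product]
    have h2 : ∑ x ∈ I ×ˢ I, a x.1 x.2 ≤
        ∑ x ∈ I ×ˢ I, ((if x ∈ E then (1 : ℝ) else 0) + (if x.1 = x.2 then (1 : ℝ) else 0)
          + mu ^ 2 / 2) := by
      apply sum_le_sum
      intro x hx
      have hxp := mem_product.1 hx
      have h1 := hle x.1 hxp.1 x.2 hxp.2
      by_cases hxE : x ∈ E
      · rw [if_pos hxE]
        have : (0 : ℝ) ≤ if x.1 = x.2 then (1 : ℝ) else 0 := by split_ifs <;> norm_num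
        nlinarith [sq_nonneg mu]
      · rw [if_neg hxE]
        by_cases hd : x.1 = x.2
        · rw [if_pos hd]; nlinarith [sq_nonneg mu]
        · rw [if_neg hd]
          have h3 : ¬ (mu ^ 2 / 2 ≤ a x.1 x.2) := by
            intro hc
            exact hxE (mem_filter.2 ⟨hx, hd, hc⟩)
          push Not at h3
          linarith
    have h3 : ∑ x ∈ I ×ˢ I, ((if x ∈ E then (1 : ℝ) else 0) + (if x.1 = x.2 then (1 : ℝ) else 0)
          + mu ^ 2 / 2) = (E.card : ℝ) + I.card + (mu ^ 2 / 2) * (I.card : ℝ) ^ 2 := by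
      rw [sum_add_distrib, sum_add_distrib, sum_const, card_product, nsmul_eq_mul]
      have e1 : ∑ x ∈ I ×ˢ I, (if x ∈ E then (1 : ℝ) else 0) = E.card := by
        rw [sum_ite_mem, sum_const, nsmul_eq_mul, mul_one]
        congr 2
        rw [inter_eq_right]
        exact filter_subset _ _
      have e2 : ∑ x ∈ I ×ˢ I, (if x.1 = x.2 then (1 : ℝ) else 0) = I.card := by
        rw [sum_product]
        simp
      rw [e1, e2]
      push_cast
      ring
    rw [h1] at hs
    linarith
  have hIpos : (0 : ℝ) < I.card := by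
    rcases Nat.eq_zero_or_pos I.card with h0 | h0
    · rw [h0] at hR; norm_num at hR
    · exact_mod_cast h0
  refine ⟨M, ?_, hMP, ?_⟩
  · intro x hx
    have h1 := mem_filter.1 (hME hx)
    have h2 := mem_product.1 h1.1
    exact ⟨h2.1, h2.2, h1.2.1, h1.2.2⟩
  · have h1 : (mu ^ 2 / 2) * (I.card : ℝ) ^ 2 - I.card ≤ 4 * M.card * I.card := by
      nlinarith only [hElow, hEr]
    have h2 : ((mu ^ 2 / 2) * I.card - 1) * (I.card : ℝ) ≤ (4 * M.card) * I.card := by
      nlinarith only [h1]
    have h3 : (mu ^ 2 / 2) * I.card - 1 ≤ 4 * (M.card : ℝ) := le_of_mul_le_mul_right h2 hIpos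
    nlinarith only [h3, hR]

open MeasureTheory in
/-- Second moment of a family of sets of mass at least mu Om inside a set of mass at most Om. -/
theorem second_moment {X ι : Type*} [MeasurableSpace X] (μ : Measure X) (I : Finset ι)
    (G : ι → Set X) (hG : ∀ i ∈ I, MeasurableSet (G i)) (U : Set X) (hU : MeasurableSet U)
    (hGU : ∀ i ∈ I, G i ⊆ U) (Om : ℝ) (hOm : 0 ≤ Om) (hμU : μ U ≤ ENNReal.ofReal Om) (mu : ℝ)
    (hmu : 0 ≤ mu) (h : ∀ i ∈ I, mu * Om ≤ (μ (G i)).toReal) :
    mu ^ 2 * (I.card : ℝ) ^ 2 * Om ≤ ∑ i ∈ I, ∑ j ∈ I, (μ (G i ∩ G j)).toReal := by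
  classical
  have hUfin : μ U ≠ ⊤ := ne_top_of_le_ne_top ENNReal.ofReal_ne_top hμU
  have hUle : (μ U).toReal ≤ Om := by
    have := ENNReal.toReal_mono ENNReal.ofReal_ne_top hμU
    rwa [ENNReal.toReal_ofReal hOm] at this
  have hfin : ∀ s : Set X, s ⊆ U → μ s ≠ ⊤ := fun s hs =>
    ne_top_of_le_ne_top hUfin (measure_mono hs)
  set c : ℝ := mu * I.card with hc
  have hc0 : 0 ≤ c := by positivity
  have hint : ∀ s : Set X, MeasurableSet s → s ⊆ U →
      Integrable (s.indicator fun _ => (1 : ℝ)) μ := by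
    intro s hs hsU
    exact (integrable_indicator_iff hs).2 (by
      rw [IntegrableOn]
      have : IsFiniteMeasure (μ.restrict s) :=
        ⟨by rw [Measure.restrict_apply_univ]; exact lt_top_iff_ne_top.2 (hfin s hsU)⟩
      exact integrable_const _)
  have hval : ∀ s : Set X, MeasurableSet s → ∫ x, s.indicator (fun _ => (1 : ℝ)) x ∂μ
      = (μ s).toReal := by
    intro s hs
    rw [integral_indicator hs, setIntegral_const, smul_eq_mul, mul_one]
    rfl
  have hpt : ∀ x, (∑ i ∈ I, (G i).indicator (fun _ => (1 : ℝ)) x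
      - c * U.indicator (fun _ => (1 : ℝ)) x) ^ 2
      = ∑ i ∈ I, ∑ j ∈ I, (G i ∩ G j).indicator (fun _ => (1 : ℝ)) x
        - 2 * c * ∑ i ∈ I, (G i).indicator (fun _ => (1 : ℝ)) x
        + c ^ 2 * U.indicator (fun _ => (1 : ℝ)) x := by
    intro x
    have e1 : (∑ i ∈ I, (G i).indicator (fun _ => (1 : ℝ)) x) ^ 2
        = ∑ i ∈ I, ∑ j ∈ I, (G i ∩ G j).indicator (fun _ => (1 : ℝ)) x := by
      rw [sq, Finset.sum_mul_sum]
      apply Finset.sum_congr rfl
      intro i _
      apply Finset.sum_congr rfl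
      intro j _
      by_cases h1 : x ∈ G i <;> by_cases h2 : x ∈ G j <;> simp [h1, h2]
    have e2 : (∑ i ∈ I, (G i).indicator (fun _ => (1 : ℝ)) x) * U.indicator (fun _ => (1 : ℝ)) x
        = ∑ i ∈ I, (G i).indicator (fun _ => (1 : ℝ)) x := by
      rw [Finset.sum_mul]
      apply Finset.sum_congr rfl
      intro i hi
      by_cases h1 : x ∈ G i
      · have h2 := hGU i hi h1
        simp [h1, h2]
      · simp [h1]
    have e3 : (U.indicator (fun _ => (1 : ℝ)) x) ^ 2 = U.indicator (fun _ => (1 : ℝ)) x := by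
      by_cases h1 : x ∈ U <;> simp [h1]
    calc (∑ i ∈ I, (G i).indicator (fun _ => (1 : ℝ)) x
          - c * U.indicator (fun _ => (1 : ℝ)) x) ^ 2
        = (∑ i ∈ I, (G i).indicator (fun _ => (1 : ℝ)) x) ^ 2
          - 2 * c * ((∑ i ∈ I, (G i).indicator (fun _ => (1 : ℝ)) x)
            * U.indicator (fun _ => (1 : ℝ)) x)
          + c ^ 2 * (U.indicator (fun _ => (1 : ℝ)) x) ^ 2 := by ring
      _ = _ := by rw [e1, e2, e3]
  have hnn : 0 ≤ ∫ x, (∑ i ∈ I, (G i).indicator (fun _ => (1 : ℝ)) x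
      - c * U.indicator (fun _ => (1 : ℝ)) x) ^ 2 ∂μ :=
    integral_nonneg fun x => sq_nonneg _
  have hI1 : Integrable (fun x => ∑ i ∈ I, ∑ j ∈ I,
      (G i ∩ G j).indicator (fun _ => (1 : ℝ)) x) μ :=
    integrable_finsetSum _ fun i hi => integrable_finsetSum _ fun j hj =>
      hint _ ((hG i hi).inter (hG j hj)) (Set.inter_subset_left.trans (hGU i hi))
  have hI2 : Integrable (fun x => 2 * c * ∑ i ∈ I, (G i).indicator (fun _ => (1 : ℝ)) x) μ :=
    (integrable_finsetSum _ fun i hi => hint _ (hG i hi) (hGU i hi)).const_mul _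
  have hI3 : Integrable (fun x => c ^ 2 * U.indicator (fun _ => (1 : ℝ)) x) μ :=
    (hint U hU le_rfl).const_mul _
  have heval : ∫ x, (∑ i ∈ I, (G i).indicator (fun _ => (1 : ℝ)) x
      - c * U.indicator (fun _ => (1 : ℝ)) x) ^ 2 ∂μ
      = ∑ i ∈ I, ∑ j ∈ I, (μ (G i ∩ G j)).toReal - 2 * c * ∑ i ∈ I, (μ (G i)).toReal
        + c ^ 2 * (μ U).toReal := by
    rw [integral_congr_ae (Filter.Eventually.of_forall hpt)]
    have hI12 : Integrable (fun x => ∑ i ∈ I, ∑ j ∈ I,
      (G i ∩ G j).indicator (fun _ => (1 : ℝ)) x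
        - 2 * c * ∑ i ∈ I, (G i).indicator (fun _ => (1 : ℝ)) x) μ := hI1.sub hI2
    rw [integral_add hI12 hI3, integral_sub hI1 hI2, integral_const_mul,
      integral_const_mul, hval U hU]
    rw [integral_finsetSum _ fun i hi => integrable_finsetSum _ fun j hj =>
      hint _ ((hG i hi).inter (hG j hj)) (Set.inter_subset_left.trans (hGU i hi))]
    rw [integral_finsetSum _ fun i hi => hint _ (hG i hi) (hGU i hi)]
    congr 2
    · apply Finset.sum_congr rfl
      intro i hi
      rw [integral_finsetSum _ fun j hj =>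
        hint _ ((hG i hi).inter (hG j hj)) (Set.inter_subset_left.trans (hGU i hi))]
      apply Finset.sum_congr rfl
      intro j hj
      exact hval _ ((hG i hi).inter (hG j hj))
    · congr 1
      apply Finset.sum_congr rfl
      intro i hi
      exact hval _ (hG i hi)
  rw [heval] at hnn
  have hsum : (I.card : ℝ) * (mu * Om) ≤ ∑ i ∈ I, (μ (G i)).toReal := by
    have := Finset.card_nsmul_le_sum I (fun i => (μ (G i)).toReal) (mu * Om) h
    rwa [nsmul_eq_mul] at this
  have h1 : 2 * c * ((I.card : ℝ) * (mu * Om)) ≤ 2 * c * ∑ i ∈ I, (μ (G i)).toReal :=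
    mul_le_mul_of_nonneg_left hsum (by positivity)
  have h2 : c ^ 2 * (μ U).toReal ≤ c ^ 2 * Om := mul_le_mul_of_nonneg_left hUle (by positivity)
  have h3 : 2 * c * ((I.card : ℝ) * (mu * Om)) = 2 * (mu ^ 2 * (I.card : ℝ) ^ 2 * Om) := by
    rw [hc]; ring
  have h4 : c ^ 2 * Om = mu ^ 2 * (I.card : ℝ) ^ 2 * Om := by rw [hc]; ring
  linarith

end Pool.Agent.H41.EH
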