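import Pool.Agent.H31.EH.Targets
import Pool.Agent.H41.EH.FinMatch

/-!
# Board eh (MP_e21eee_nt), row FIN: a set of cells without light rows and columns is dense
-/

set_option autoImplicit false

open Finset MeasureTheory

namespace Pool.Agent.H41.EH

open Pool.Agent.H31.EH

theorem pf_FIN : T_FIN := by
  classical
  intro D₁ D₂ T kap hD₁ hD₂ hco hT hkap hle
  have hinj : Set.InjOn (fun x : ℕ => (x % D₁, x % D₂)) (T : Set ℕ) := by
    intro x hx y hy hxy
    have hx' := mem_range.1 (hT (mem_coe.1 hx))
    have hy' := mem_range.1 (hT (mem_coe.1 hy))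
    have h1 : x % D₁ = y % D₁ := congrArg Prod.fst hxy
    have h2 : x % D₂ = y % D₂ := congrArg Prod.snd hxy
    have h3 : x ≡ y [MOD D₁ * D₂] := (Nat.modEq_and_modEq_iff_modEq_mul hco).1 ⟨h1, h2⟩
    exact Nat.ModEq.eq_of_lt_of_lt h3 hx' hy'
  obtain ⟨T', hT'⟩ : ∃ T' : Finset (ℕ × ℕ), T' = T.image fun x : ℕ => (x % D₁, x % D₂) :=
    ⟨_, rfl⟩
  have hcard : T'.card = T.card := by
    rw [hT']; exact card_image_of_injOn hinj
  have hsub : T' ⊆ range D₁ ×ˢ range D₂ := by
    intro x hx
    rw [hT', mem_image] at hx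
    obtain ⟨y, _, rfl⟩ := hx
    exact mem_product.2 ⟨mem_range.2 (Nat.mod_lt _ hD₁), mem_range.2 (Nat.mod_lt _ hD₂)⟩
  have hf1 : ∀ x ∈ T, ((T'.filter fun y => y.1 = x % D₁).card) =
      (T.filter fun x' => x' % D₁ = x % D₁).card := by
    intro x _
    rw [hT', filter_image]
    exact card_image_of_injOn (hinj.mono (by
      intro z hz
      exact mem_coe.2 (mem_filter.1 (mem_coe.1 hz)).1))
  have hf2 : ∀ x ∈ T, ((T'.filter fun y => y.2 = x % D₂).card) =
      (T.filter fun x' => x' % D₂ = x % D₂).card := by
    intro x _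
    rw [hT', filter_image]
    exact card_image_of_injOn (hinj.mono (by
      intro z hz
      exact mem_coe.2 (mem_filter.1 (mem_coe.1 hz)).1))
  have hg1 : ((T'.filter fun x => ((T'.filter fun y => y.1 = x.1).card : ℝ) <
      kap * (range D₂).card).card) = (T.filter fun x =>
        ((T.filter fun x' => x' % D₁ = x % D₁).card : ℝ) < kap * D₂).card := by
    have h1 : (T'.filter fun x => ((T'.filter fun y => y.1 = x.1).card : ℝ) <
      kap * (range D₂).card) = (T.filter fun x =>
        ((T.filter fun x' => x' % D₁ = x % D₁).card : ℝ) < kap * D₂).image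
          fun x : ℕ => (x % D₁, x % D₂) := by
      ext y
      rw [mem_filter, mem_image]
      constructor
      · rintro ⟨hy, hlt⟩
        rw [hT', mem_image] at hy
        obtain ⟨x, hx, rfl⟩ := hy
        refine ⟨x, mem_filter.2 ⟨hx, ?_⟩, rfl⟩
        rw [card_range] at hlt
        have h := hf1 x hx
        rw [← h]
        exact hlt
      · rintro ⟨x, hx, rfl⟩
        rw [mem_filter] at hx
        refine ⟨?_, ?_⟩
        · rw [hT', mem_image]; exact ⟨x, hx.1, rfl⟩
        · rw [card_range]
          have h := hf1 x hx.1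
          have h2 := hx.2
          rw [← h] at h2
          exact h2
    rw [h1]
    exact card_image_of_injOn (hinj.mono (by
      intro z hz
      exact mem_coe.2 (mem_filter.1 (mem_coe.1 hz)).1))
  have hg2 : ((T'.filter fun x => ((T'.filter fun y => y.2 = x.2).card : ℝ) <
      kap * (range D₁).card).card) = (T.filter fun x =>
        ((T.filter fun x' => x' % D₂ = x % D₂).card : ℝ) < kap * D₁).card := by
    have h1 : (T'.filter fun x => ((T'.filter fun y => y.2 = x.2).card : ℝ) <
      kap * (range D₁).card) = (T.filter fun x =>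
        ((T.filter fun x' => x' % D₂ = x % D₂).card : ℝ) < kap * D₁).image
          fun x : ℕ => (x % D₁, x % D₂) := by
      ext y
      rw [mem_filter, mem_image]
      constructor
      · rintro ⟨hy, hlt⟩
        rw [hT', mem_image] at hy
        obtain ⟨x, hx, rfl⟩ := hy
        refine ⟨x, mem_filter.2 ⟨hx, ?_⟩, rfl⟩
        rw [card_range] at hlt
        have h := hf2 x hx
        rw [← h]
        exact hlt
      · rintro ⟨x, hx, rfl⟩
        rw [mem_filter] at hx
        refine ⟨?_, ?_⟩
        · rw [hT', mem_image]; exact ⟨x, hx.1, rfl⟩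
        · rw [card_range]
          have h := hf2 x hx.1
          have h2 := hx.2
          rw [← h] at h2
          exact h2
    rw [h1]
    exact card_image_of_injOn (hinj.mono (by
      intro z hz
      exact mem_coe.2 (mem_filter.1 (mem_coe.1 hz)).1))
  have hmain := finl (range D₁) (range D₂) T' hsub kap hkap (by
    rw [hcard, card_range, card_range]
    calc (T.card : ℝ) ≤ kap ^ 2 / 2 * (D₁ * D₂) := hle
      _ = kap ^ 2 * ((D₁ : ℝ) * D₂) / 2 := by ring)
  rw [hcard, hg1, hg2] at hmain
  exact hmain

end Pool.Agent.H41.EH
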