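import Pool.Agent.H31.EH.Targets

/-!
# Board ehf (MP_e21eee_nt), row STA: one doubling of a family
-/

set_option autoImplicit false

open Finset MeasureTheory

namespace Pool.Agent.H41.EH

open Pool.Agent.H24.CL Pool.Agent.H24.LV Pool.Agent.H26.ES Pool.Agent.H31.EH

theorem pf_STA (hPAR : T_PAR) (hDBL : T_DBL) (_hMEA : T_MEA) : T_STA := by
  classical
  intro k Q V Ge Gd P m τ Ω kap kap' μ R E n hDat hkap hkap' hμ hn hPM herr hR hFam
  obtain ⟨F, hRF, hF, hdisj⟩ := hFam
  have hstep : ∀ j : ℕ, (∀ i < j, 8 ≤ μ ^ 2 * ((F.card : ℝ) - 2 * i)) →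
      ∃ F' ⊆ F, ∃ G : Finset (Finset ℕ), F'.card + 2 * j = F.card ∧ G.card = j ∧
        (∀ S ∈ G, S ⊆ Q ∧ S.card = 2 * n ∧
          μ ^ 2 / 4 * Ω ≤ mass k (DS S) (fun b x => Good S V Gd (kap' ^ 2 / 2) b x)) ∧
        (∀ S ∈ G, ∀ S' ∈ G, S ≠ S' → Disjoint S S') ∧
        (∀ S ∈ G, ∀ S' ∈ F', Disjoint S S') := by
    intro j
    induction j with
    | zero =>
      intro _
      exact ⟨F, subset_rfl, ∅, by simp, by simp, by simp, by simp, by simp⟩
    | succ j ih =>
      intro hj
      obtain ⟨F', hF', G, hc, hGc, hG1, hG2, hG3⟩ := ih fun i hi => hj i (by omega)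
      have h8 : 8 ≤ μ ^ 2 * (F'.card : ℝ) := by
        have h1 := hj j (by omega)
        have h2 : (F'.card : ℝ) = (F.card : ℝ) - 2 * j := by
          have : (F'.card : ℝ) + 2 * j = F.card := by exact_mod_cast hc
          linarith
        rw [h2]
        exact h1
      obtain ⟨S, hS, S', hS', hne, hmass⟩ := hPAR k Q V Ge Gd P m τ Ω kap μ hDat hμ F'
        (fun T hT => ⟨(hF T (hF' hT)).1, (hF T (hF' hT)).2.2⟩)
        (fun T hT T' hT' hTT => hdisj T (hF' hT) T' (hF' hT') hTT) h8
      obtain ⟨hSQ, hSc, _⟩ := hF S (hF' hS)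
      obtain ⟨hSQ', hSc', _⟩ := hF S' (hF' hS')
      have hd : Disjoint S S' := hdisj S (hF' hS) S' (hF' hS') hne
      have h1 := hDBL k Q V Ge Gd P m τ Ω kap kap' E hDat hkap hkap' S hSQ S' hSQ' hd
        (fun T hT T' hT' => by
          have hTc : T.card ≤ n := hSc ▸ card_le_card hT
          have hTc' : T'.card ≤ n := hSc' ▸ card_le_card hT'
          have hTd : Disjoint T T' := disjoint_of_subset_left hT (disjoint_of_subset_right hT' hd)
          exact ⟨hPM T (hT.trans hSQ) T' (hT'.trans hSQ') hTd hTc hTc',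
            hPM T' (hT'.trans hSQ') T (hT.trans hSQ) hTd.symm hTc' hTc⟩)
      rw [hSc, hSc', ← two_mul] at h1
      have hgood : μ ^ 2 / 4 * Ω ≤
          mass k (DS (S ∪ S')) (fun b x => Good (S ∪ S') V Gd (kap' ^ 2 / 2) b x) := by
        have h2 : μ ^ 2 / 2 * Ω = μ ^ 2 / 4 * Ω + μ ^ 2 / 4 * Ω := by ring
        linarith
      have hSne : S.Nonempty := by
        rw [← card_pos, hSc]; omega
      have hnotin : S ∪ S' ∉ G := by
        intro hin
        have h3 := hG3 _ hin S hS
        obtain ⟨a, ha⟩ := hSne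
        exact (disjoint_left.1 h3) (mem_union_left _ ha) ha
      refine ⟨(F'.erase S).erase S', ((erase_subset _ _).trans (erase_subset _ _)).trans hF',
        insert (S ∪ S') G, ?_, ?_, ?_, ?_, ?_⟩
      · have e1 : ((F'.erase S).erase S').card = F'.card - 1 - 1 := by
          rw [card_erase_of_mem (mem_erase.2 ⟨hne.symm, hS'⟩), card_erase_of_mem hS]
        have e2 : 2 ≤ F'.card := by
          have : ({S, S'} : Finset (Finset ℕ)) ⊆ F' := by
            intro T hT
            rw [mem_insert, mem_singleton] at hT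
            rcases hT with rfl | rfl
            · exact hS
            · exact hS'
          have h3 := card_le_card this
          rwa [card_pair hne] at h3
        rw [e1]
        omega
      · rw [card_insert_of_notMem hnotin, hGc]
      · intro T hT
        rw [mem_insert] at hT
        rcases hT with rfl | hT
        · refine ⟨union_subset hSQ hSQ', ?_, hgood⟩
          rw [card_union_of_disjoint hd, hSc, hSc']
          ring
        · exact hG1 T hT
      · have hdT : ∀ T ∈ G, Disjoint T (S ∪ S') := fun T hT =>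
          disjoint_union_right.2 ⟨hG3 T hT S hS, hG3 T hT S' hS'⟩
        intro T hT T' hT' hTT
        rw [mem_insert] at hT hT'
        rcases hT with rfl | hT
        · rcases hT' with rfl | hT'
          · exact absurd rfl hTT
          · exact (hdT T' hT').symm
        · rcases hT' with rfl | hT'
          · exact hdT T hT
          · exact hG2 T hT T' hT' hTT
      · intro T hT T' hT'
        rw [mem_erase, mem_erase] at hT'
        obtain ⟨hn1, hn2, hT'F⟩ := hT'
        rw [mem_insert] at hT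
        rcases hT with rfl | hT
        · refine disjoint_union_left.2 ⟨?_, ?_⟩
          · exact hdisj S (hF' hS) T' (hF' hT'F) (Ne.symm hn2)
          · exact hdisj S' (hF' hS') T' (hF' hT'F) (Ne.symm hn1)
        · exact hG3 T hT T' hT'F
  have hμ2 : 0 < μ ^ 2 := by positivity
  have hR16 : 16 ≤ μ ^ 2 * R := by
    rw [div_le_iff₀ hμ2] at hR
    linarith
  have hRpos : 0 < R := lt_of_lt_of_le (by positivity) hR
  obtain ⟨F', _, G, _, hGc, hG1, hG2, _⟩ := hstep ⌈R / 8⌉₊ (by
    intro i hi
    have h1 : (i : ℝ) < R / 8 := Nat.lt_ceil.1 hi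
    have h2 : 3 / 4 * R ≤ (F.card : ℝ) - 2 * i := by linarith
    calc (8 : ℝ) ≤ 3 / 4 * 16 := by norm_num
      _ ≤ 3 / 4 * (μ ^ 2 * R) := by linarith
      _ = μ ^ 2 * (3 / 4 * R) := by ring
      _ ≤ μ ^ 2 * ((F.card : ℝ) - 2 * i) := mul_le_mul_of_nonneg_left h2 hμ2.le)
  refine ⟨G, ?_, hG1, hG2⟩
  rw [hGc]
  exact Nat.le_ceil _

end Pool.Agent.H41.EH
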